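import Pool.Agent.Helper68.Fpt.Final

/-!
# Budgeted coloring is fixed-parameter tractable in the cluster vertex deletion number

The definitions (instances, yes-instances, the cluster vertex deletion number, the encoding and
fixed-parameter tractability) are in `Pool/Agent/Helper68/Fpt/Defs.lean`.
-/

namespace Pool.Agent.Results.MP_572c27_lc.FixedParameterTractable

open Pool.Agent.Helper68.BCP

/-- The Budgeted Coloring Problem, parameterized by the cluster vertex deletion number of the graph
alone, is fixed-parameter tractable (and instances are encoded injectively). -/
theorem result :
    Function.Injective Inst.enc ∧ IsFPT Inst.enc Inst.Yes (fun I => cvd I.G) := main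

end Pool.Agent.Results.MP_572c27_lc.FixedParameterTractable
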